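import Pool.Agent.W285.UB.Stm
import Pool.Agent.Helper259.AbsHt

/-!
# Project UB: heights of vectors of integers
-/

set_option autoImplicit false

namespace Pool.Agent.W762.UB

open NumberField Height Module
open Pool.Agent.Helper259.AbsHt Pool.Agent.W285.UB

theorem hint : S_HINT := by
  intro K _ _ ι κ _ x B hB hx
  by_cases h0 : ∀ i, x i = 0
  · have h1 : (fun i => io ι (x i)) = 0 := by
      funext i
      rw [h0 i, map_zero]
      rfl
    rw [h1, absLogHeight_zero]
    exact Real.log_nonneg hB
  · push Not at h0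
    obtain ⟨i0, hi0⟩ := h0
    have hne : Nonempty κ := ⟨i0⟩
    have hfin : (0 : ℝ) < finrank ℚ K := by exact_mod_cast Module.finrank_pos
    have hB0 : 0 < B := by linarith
    have e : (fun i => io ι (x i)) = fun i => ι ((fun i => (x i : K)) i) := rfl
    rw [e, absLogHeight_eq K ι (fun i => (x i : K)), div_le_iff₀ hfin, logHeight_eq_log_mulHeight]
    have hy : (fun i => (x i : K)) ≠ 0 := by
      intro h
      apply hi0
      have := congrFun h i0
      exact RingOfIntegers.ext this
    rw [NumberField.mulHeight_eq hy]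
    have h1 : ∏ v : InfinitePlace K, (⨆ i, v (x i : K)) ^ v.mult ≤ B ^ finrank ℚ K := by
      rw [← InfinitePlace.sum_mult_eq (K := K), ← Finset.prod_pow_eq_pow_sum]
      apply Finset.prod_le_prod
      · intro v _
        exact pow_nonneg (Real.iSup_nonneg fun i => apply_nonneg v _) _
      · intro v _
        apply pow_le_pow_left₀ (Real.iSup_nonneg fun i => apply_nonneg v _)
        apply ciSup_le
        intro i
        rw [← InfinitePlace.norm_embedding_eq]
        exact hx i v.embedding
    have h2 : 0 ≤ (∏ᶠ v : FinitePlace K, ⨆ i, v (x i : K)) ∧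
        (∏ᶠ v : FinitePlace K, ⨆ i, v (x i : K)) ≤ 1 := by
      apply finprod_induction (p := fun t : ℝ => 0 ≤ t ∧ t ≤ 1)
      · exact ⟨zero_le_one, le_rfl⟩
      · rintro a b ⟨ha, ha1⟩ ⟨hb, hb1⟩
        exact ⟨mul_nonneg ha hb, mul_le_one₀ ha1 hb hb1⟩
      · intro v
        refine ⟨Real.iSup_nonneg fun i => apply_nonneg v _, ciSup_le fun i => ?_⟩
        rw [← FinitePlace.norm_embedding_eq]
        exact FinitePlace.norm_le_one K v.maximalIdeal (x i)
    have hpos : 0 < mulHeight (fun i => (x i : K)) := mulHeight_pos _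
    rw [NumberField.mulHeight_eq hy] at hpos
    have h3 : (∏ v : InfinitePlace K, (⨆ i, v (x i : K)) ^ v.mult) *
        (∏ᶠ v : FinitePlace K, ⨆ i, v (x i : K)) ≤ B ^ finrank ℚ K := by
      calc _ ≤ B ^ finrank ℚ K * 1 := mul_le_mul h1 h2.2 h2.1 (by positivity)
        _ = _ := mul_one _
    calc Real.log _ ≤ Real.log (B ^ finrank ℚ K) := Real.log_le_log hpos h3
      _ = Real.log B * finrank ℚ K := by rw [Real.log_pow, mul_comm]

end Pool.Agent.W762.UB
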